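import Pool.Agent.H30.Jump

open Pool.Agent.H30.Jump

theorem Pool.Agent.Results.MP_b8a1e8_lc.NotIncl.result :
    ∃ G0 : Gr Bool Bool, CS G0 ∧
      ∀ (N : Type) (G : Gr Bool N), Mono G → lang G (JStep G) ≠ lang G0 (BStep G0) :=
  ⟨G0, G0_cs, main⟩
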